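import Pool.Agent.L0h87.LE.Stm

set_option autoImplicit false

/-!
# The circle method on `ZMod Q`
-/

namespace Pool.Agent.L0h29.LE

open Finset Pool.Agent.L0h87.LE

open scoped ComplexConjugate

/-- the exponential sum on `ZMod Q` -/
noncomputable def F (Q : ℕ) [NeZero Q] (f : ℕ → ℝ) (N : ℕ) (a : ℤ) (x : ZMod Q) : ℂ :=
  ∑ m ∈ odds N, (f m : ℂ) * ZMod.stdAddChar (x * ((a * (m : ℤ) : ℤ) : ZMod Q))

theorem F_eq {Q : ℕ} [NeZero Q] (f : ℕ → ℝ) (N : ℕ) (a : ℤ) (x : ZMod Q) :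
    F Q f N a x = S f N ((a : ℝ) * x.val / Q) := by
  unfold F S
  refine Finset.sum_congr rfl fun m _ => ?_
  congr 1
  have h : x * ((a * (m : ℤ) : ℤ) : ZMod Q) = (((x.val : ℤ) * (a * m) : ℤ) : ZMod Q) := by
    push_cast
    rw [ZMod.natCast_zmod_val]
  rw [h, ZMod.stdAddChar_coe, ee]
  congr 1
  push_cast
  ring

theorem orth {Q : ℕ} [NeZero Q] (t : ℤ) :
    ∑ x : ZMod Q, (ZMod.stdAddChar (x * (t : ZMod Q)) : ℂ) = if (Q : ℤ) ∣ t then (Q : ℂ) else 0 := by
  rw [AddChar.sum_mulShift _ (ZMod.isPrimitive_stdAddChar Q)]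
  simp [ZMod.intCast_zmod_eq_zero_iff_dvd, ZMod.card]

theorem card_odds (N : ℕ) : ((odds N).card : ℝ) ≤ N := by
  have h : (odds N).card ≤ (Icc 1 N).card := Finset.card_filter_le _ _
  rw [Nat.card_Icc] at h
  exact_mod_cast h

theorem norm_F {Q : ℕ} [NeZero Q] {C : ℝ} (f : ℕ → ℝ) (hf : ∀ m, |f m| ≤ C) (N : ℕ) (a : ℤ)
    (hC : 0 ≤ C) (x : ZMod Q) : ‖F Q f N a x‖ ≤ C * N := by
  unfold F
  calc ‖∑ m ∈ odds N, (f m : ℂ) * ZMod.stdAddChar (x * ((a * (m : ℤ) : ℤ) : ZMod Q))‖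
      ≤ ∑ m ∈ odds N, ‖(f m : ℂ) * ZMod.stdAddChar (x * ((a * (m : ℤ) : ℤ) : ZMod Q))‖ :=
        norm_sum_le _ _
    _ ≤ ∑ _m ∈ odds N, C := by
        refine Finset.sum_le_sum fun m _ => ?_
        rw [norm_mul, AddChar.norm_apply, mul_one, Complex.norm_real]
        exact hf m
    _ = (odds N).card * C := by simp
    _ ≤ C * N := by
        rw [mul_comm]
        exact mul_le_mul_of_nonneg_left (card_odds N) hC

theorem pars {Q : ℕ} [NeZero Q] {C : ℝ} (f : ℕ → ℝ) (hf : ∀ m, |f m| ≤ C) (N : ℕ) (a : ℤ)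
    (ha : a ≠ 0) (hQ : |a| * N < Q) :
    ∑ x : ZMod Q, ‖F Q f N a x‖ ^ 2 ≤ Q * (C ^ 2 * N) := by
  have h1 : ((∑ x : ZMod Q, ‖F Q f N a x‖ ^ 2 : ℝ) : ℂ) = Q * ∑ m ∈ odds N, (f m : ℂ) ^ 2 := by
    push_cast
    calc ∑ x : ZMod Q, (‖F Q f N a x‖ : ℂ) ^ 2
        = ∑ x : ZMod Q, ∑ m ∈ odds N, ∑ m' ∈ odds N, ((f m : ℂ) * f m') *
            ZMod.stdAddChar (x * ((a * ((m : ℤ) - m') : ℤ) : ZMod Q)) := by
          refine Finset.sum_congr rfl fun x _ => ?_
          rw [← Complex.mul_conj', F, map_sum, Finset.sum_mul_sum]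
          refine Finset.sum_congr rfl fun m _ => Finset.sum_congr rfl fun m' _ => ?_
          rw [RingHom.map_mul, Complex.conj_ofReal, ← AddChar.map_neg_eq_conj]
          have h : x * ((a * ((m : ℤ) - m') : ℤ) : ZMod Q) = x * ((a * (m : ℤ) : ℤ) : ZMod Q) +
              (-(x * ((a * (m' : ℤ) : ℤ) : ZMod Q))) := by
            push_cast
            ring
          rw [h, AddChar.map_add_eq_mul]
          ring
      _ = ∑ m ∈ odds N, ∑ m' ∈ odds N, ((f m : ℂ) * f m') *
            ∑ x : ZMod Q, ZMod.stdAddChar (x * ((a * ((m : ℤ) - m') : ℤ) : ZMod Q)) := by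
          rw [Finset.sum_comm]
          refine Finset.sum_congr rfl fun m _ => ?_
          rw [Finset.sum_comm]
          refine Finset.sum_congr rfl fun m' _ => ?_
          rw [Finset.mul_sum]
      _ = ∑ m ∈ odds N, (f m : ℂ) ^ 2 * Q := by
          refine Finset.sum_congr rfl fun m hm => ?_
          rw [Finset.sum_eq_single m]
          · rw [orth]
            simp [sq]
          · intro m' hm' hne
            rw [orth, if_neg, mul_zero]
            intro hd
            have h2 : |a * ((m : ℤ) - m')| < Q := by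
              rw [abs_mul]
              refine lt_of_le_of_lt ?_ hQ
              refine mul_le_mul_of_nonneg_left ?_ (abs_nonneg a)
              simp only [odds, Finset.mem_filter, Finset.mem_Icc] at hm hm'
              rw [abs_le]
              constructor <;> omega
            have h3 := Int.eq_zero_of_abs_lt_dvd hd h2
            rcases mul_eq_zero.1 h3 with h4 | h4
            · exact ha h4
            · exact hne (by omega)
          · intro h
            exact absurd hm h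
      _ = Q * ∑ m ∈ odds N, (f m : ℂ) ^ 2 := by
          rw [← Finset.sum_mul, mul_comm]
  have h2 : ∑ x : ZMod Q, ‖F Q f N a x‖ ^ 2 = Q * ∑ m ∈ odds N, f m ^ 2 := by
    exact_mod_cast h1
  rw [h2]
  refine mul_le_mul_of_nonneg_left ?_ (Nat.cast_nonneg Q)
  calc ∑ m ∈ odds N, f m ^ 2 ≤ ∑ _m ∈ odds N, C ^ 2 :=
        Finset.sum_le_sum fun m _ => by
          rw [← sq_abs]
          exact pow_le_pow_left₀ (abs_nonneg _) (hf m) 2
    _ = (odds N).card * C ^ 2 := by simp
    _ ≤ C ^ 2 * N := by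
        rw [mul_comm]
        exact mul_le_mul_of_nonneg_left (card_odds N) (sq_nonneg C)

theorem char_sum {Q : ℕ} [NeZero Q] {ι : Type*} (s : Finset ι) (f : ι → ZMod Q) :
    (ZMod.stdAddChar (∑ i ∈ s, f i) : ℂ) = ∏ i ∈ s, ZMod.stdAddChar (f i) := by
  classical
  induction s using Finset.induction_on with
  | empty => simp
  | insert i s hi ih => rw [Finset.sum_insert hi, Finset.prod_insert hi, AddChar.map_add_eq_mul, ih]

theorem main {Q : ℕ} [NeZero Q] {k : ℕ} (a : Fin k → ℤ) (N : ℕ) (n : ℤ) (w : Fin k → ℕ → ℝ)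
    (hQ : (∑ i, |a i|) * N + |n| < Q) :
    (Q : ℂ) * (G a N n w : ℂ) =
      ∑ x : ZMod Q, ZMod.stdAddChar (x * ((-n : ℤ) : ZMod Q)) * ∏ i, F Q (w i) N (a i) x := by
  unfold F
  calc (Q : ℂ) * (G a N n w : ℂ)
      = ∑ m ∈ Fintype.piFinset fun _ : Fin k => odds N, (∏ i, (w i (m i) : ℂ)) *
          (if (Q : ℤ) ∣ (∑ i, a i * (m i : ℤ) - n) then (Q : ℂ) else 0) := by
        unfold G
        rw [Finset.sum_filter]
        push_cast
        rw [Finset.mul_sum]
        refine Finset.sum_congr rfl fun m hm => ?_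
        have h : (∑ i, a i * (m i : ℤ) = n) ↔ (Q : ℤ) ∣ (∑ i, a i * (m i : ℤ) - n) := by
          constructor
          · intro h
            rw [h, sub_self]
            exact dvd_zero _
          · intro h
            have h2 : |∑ i, a i * (m i : ℤ) - n| < Q := by
              refine lt_of_le_of_lt ?_ hQ
              refine (abs_sub _ _).trans ?_
              refine add_le_add ?_ le_rfl
              refine (Finset.abs_sum_le_sum_abs _ _).trans ?_
              rw [Finset.sum_mul]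
              refine Finset.sum_le_sum fun i _ => ?_
              rw [abs_mul]
              refine mul_le_mul_of_nonneg_left ?_ (abs_nonneg _)
              have h3 := Fintype.mem_piFinset.1 hm i
              simp only [odds, Finset.mem_filter, Finset.mem_Icc] at h3
              rw [abs_le]
              constructor <;> omega
            have h3 := Int.eq_zero_of_abs_lt_dvd h h2
            omega
        by_cases h' : ∑ i, a i * (m i : ℤ) = n
        · rw [if_pos h', if_pos (h.1 h')]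
          push_cast
          ring
        · rw [if_neg h', if_neg (fun h2 => h' (h.2 h2))]
          simp
    _ = ∑ m ∈ Fintype.piFinset fun _ : Fin k => odds N, (∏ i, (w i (m i) : ℂ)) *
          ∑ x : ZMod Q, ZMod.stdAddChar (x * ((∑ i, a i * (m i : ℤ) - n : ℤ) : ZMod Q)) := by
        refine Finset.sum_congr rfl fun m _ => ?_
        rw [orth]
    _ = ∑ x : ZMod Q, ZMod.stdAddChar (x * ((-n : ℤ) : ZMod Q)) *
          ∑ m ∈ Fintype.piFinset fun _ : Fin k => odds N, ∏ i, ((w i (m i) : ℂ) *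
            ZMod.stdAddChar (x * ((a i * (m i : ℤ) : ℤ) : ZMod Q))) := by
        simp only [Finset.mul_sum]
        rw [Finset.sum_comm]
        refine Finset.sum_congr rfl fun x _ => Finset.sum_congr rfl fun m _ => ?_
        rw [Finset.prod_mul_distrib]
        have h : x * ((∑ i, a i * (m i : ℤ) - n : ℤ) : ZMod Q) = x * ((-n : ℤ) : ZMod Q) +
            ∑ i, x * ((a i * (m i : ℤ) : ℤ) : ZMod Q) := by
          rw [← Finset.mul_sum]
          push_cast
          ring
        rw [h, AddChar.map_add_eq_mul, char_sum]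
        ring
    _ = _ := by
        refine Finset.sum_congr rfl fun x _ => ?_
        rw [Finset.prod_univ_sum]

theorem CIR : Pool.Agent.L0h87.LE.CIR := by
  intro k hk a ha N n C E w i₀ hC hE hw hS
  obtain ⟨Q, hQ⟩ : ∃ Q : ℕ, (∑ i, |a i|) * N + |n| < (Q : ℤ) := by
    obtain ⟨Q, hQ⟩ := Int.eq_ofNat_of_zero_le (a := (∑ i, |a i|) * N + |n| + 1) (by positivity)
    exact ⟨Q, by rw [← hQ]; omega⟩
  have hQ0 : 0 < (Q : ℤ) := lt_of_le_of_lt (by positivity) hQ
  have : NeZero Q := ⟨by omega⟩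
  have hQr : (0 : ℝ) < Q := by exact_mod_cast hQ0
  have hQi : ∀ i, |a i| * N < (Q : ℤ) := fun i => by
    refine lt_of_le_of_lt ?_ hQ
    have h1 : |a i| ≤ ∑ i, |a i| :=
      Finset.single_le_sum (f := fun i => |a i|) (fun i _ => abs_nonneg _) (Finset.mem_univ i)
    have h2 : |a i| * (N : ℤ) ≤ (∑ i, |a i|) * N := mul_le_mul_of_nonneg_right h1 (by positivity)
    have h3 := abs_nonneg n
    linarith
  obtain ⟨i₁, i₂, h1, h2, h3⟩ : ∃ i₁ i₂ : Fin k, i₁ ≠ i₀ ∧ i₂ ≠ i₀ ∧ i₁ ≠ i₂ := by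
    have h : 1 < ((Finset.univ : Finset (Fin k)).erase i₀).card := by
      rw [Finset.card_erase_of_mem (Finset.mem_univ _), Finset.card_univ, Fintype.card_fin]
      omega
    obtain ⟨i₁, h1, i₂, h2, h3⟩ := Finset.one_lt_card.1 h
    exact ⟨i₁, i₂, (Finset.mem_erase.1 h1).1, (Finset.mem_erase.1 h2).1, h3⟩
  have key : (Q : ℝ) * |G a N n w| ≤ ∑ x : ZMod Q, ∏ i, ‖F Q (w i) N (a i) x‖ := by
    have h := congrArg (fun z => ‖z‖) (main a N n w hQ)
    simp only [norm_mul, Complex.norm_real, Complex.norm_natCast, Real.norm_eq_abs] at h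
    rw [h]
    refine (norm_sum_le _ _).trans (le_of_eq ?_)
    refine Finset.sum_congr rfl fun x _ => ?_
    rw [norm_mul, AddChar.norm_apply, one_mul, norm_prod]
  have hb : ∀ x : ZMod Q, ∏ i, ‖F Q (w i) N (a i) x‖ ≤
      E * (C * N) ^ (k - 3) * ((‖F Q (w i₁) N (a i₁) x‖ ^ 2 + ‖F Q (w i₂) N (a i₂) x‖ ^ 2) / 2) := by
    intro x
    have hCN : 0 ≤ C * N := mul_nonneg hC (Nat.cast_nonneg N)
    rw [← Finset.mul_prod_erase Finset.univ _ (Finset.mem_univ i₀),
      ← Finset.mul_prod_erase (Finset.univ.erase i₀) _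
        (Finset.mem_erase.2 ⟨h1, Finset.mem_univ i₁⟩),
      ← Finset.mul_prod_erase ((Finset.univ.erase i₀).erase i₁) _
        (Finset.mem_erase.2 ⟨h3.symm, Finset.mem_erase.2 ⟨h2, Finset.mem_univ i₂⟩⟩)]
    have hp : ∏ i ∈ ((Finset.univ.erase i₀).erase i₁).erase i₂, ‖F Q (w i) N (a i) x‖ ≤
        (C * N) ^ (k - 3) := by
      have hc : (((Finset.univ.erase i₀).erase i₁).erase i₂ : Finset (Fin k)).card = k - 3 := by
        rw [Finset.card_erase_of_mem (Finset.mem_erase.2 ⟨h3.symm, Finset.mem_erase.2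
            ⟨h2, Finset.mem_univ i₂⟩⟩),
          Finset.card_erase_of_mem (Finset.mem_erase.2 ⟨h1, Finset.mem_univ i₁⟩),
          Finset.card_erase_of_mem (Finset.mem_univ _), Finset.card_univ, Fintype.card_fin]
        omega
      rw [← hc]
      refine (Finset.prod_le_prod (fun i _ => norm_nonneg _)
        (fun i _ => norm_F (w i) (hw i) N (a i) hC x)).trans (le_of_eq ?_)
      rw [Finset.prod_const]
    have h0 : ‖F Q (w i₀) N (a i₀) x‖ ≤ E := by
      rw [F_eq]
      exact hS _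
    have h4 : ‖F Q (w i₁) N (a i₁) x‖ * ‖F Q (w i₂) N (a i₂) x‖ ≤
        (‖F Q (w i₁) N (a i₁) x‖ ^ 2 + ‖F Q (w i₂) N (a i₂) x‖ ^ 2) / 2 := by
      nlinarith [sq_nonneg (‖F Q (w i₁) N (a i₁) x‖ - ‖F Q (w i₂) N (a i₂) x‖)]
    have hpp : 0 ≤ ∏ i ∈ ((Finset.univ.erase i₀).erase i₁).erase i₂, ‖F Q (w i) N (a i) x‖ :=
      Finset.prod_nonneg fun i _ => norm_nonneg _
    calc _ = ‖F Q (w i₀) N (a i₀) x‖ * ((‖F Q (w i₁) N (a i₁) x‖ * ‖F Q (w i₂) N (a i₂) x‖) *
          ∏ i ∈ ((Finset.univ.erase i₀).erase i₁).erase i₂, ‖F Q (w i) N (a i) x‖) := by ring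
      _ ≤ E * (((‖F Q (w i₁) N (a i₁) x‖ ^ 2 + ‖F Q (w i₂) N (a i₂) x‖ ^ 2) / 2) *
          (C * N) ^ (k - 3)) := by gcongr
      _ = _ := by ring
  have hsum : ∑ x : ZMod Q, ∏ i, ‖F Q (w i) N (a i) x‖ ≤
      E * (C * N) ^ (k - 3) * (Q * (C ^ 2 * N)) := by
    refine (Finset.sum_le_sum fun x _ => hb x).trans ?_
    rw [← Finset.mul_sum]
    refine mul_le_mul_of_nonneg_left ?_ (by positivity)
    rw [← Finset.sum_div, Finset.sum_add_distrib]
    have h5 := pars (w i₁) (hw i₁) N (a i₁) (ha i₁) (hQi i₁)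
    have h6 := pars (w i₂) (hw i₂) N (a i₂) (ha i₂) (hQi i₂)
    linarith
  have hfin : (Q : ℝ) * |G a N n w| ≤ Q * (E * C ^ (k - 1) * N ^ (k - 2)) := by
    refine (key.trans hsum).trans (le_of_eq ?_)
    obtain ⟨j, rfl⟩ := Nat.exists_eq_add_of_le hk
    have e1 : 3 + j - 3 = j := by omega
    have e2 : 3 + j - 1 = j + 2 := by omega
    have e3 : 3 + j - 2 = j + 1 := by omega
    rw [e1, e2, e3, mul_pow]
    ring
  exact le_of_mul_le_mul_left hfin hQr

end Pool.Agent.L0h29.LE
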